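import Mathlib

/-!
# The longest path after the (1, 1) random edge-removal process has expected length of order log n

The output of the process is contained in the union of two random recursive trees: the last
incoming edges and the last outgoing edges of the vertices, in the random order of the edges. A
first moment bound for the paths in the union, in each half of the vertex set, gives the upper
bound. For the lower bound, the last incoming edges of the first `n ^ (1 / 4)` vertices are all
kept, up to an event of small probability.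
-/

set_option autoImplicit false

open Finset Filter Topology

namespace Pool.Agent.Results.MP_25bd62_pr.LogLength

/-- The edges of the complete task-dependency graph on `n` vertices. -/
abbrev Edge (n : ℕ) := {e : Fin n × Fin n // e.1 < e.2}

/-- The initial vertices of the graph with edge set `G`: those without incoming edge. -/
def initials {n : ℕ} (G : Finset (Edge n)) : Finset (Fin n) :=
  univ.filter (fun v => ∀ e ∈ G, e.1.2 ≠ v)

/-- The terminal vertices of the graph with edge set `G`: those without outgoing edge. -/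
def terminals {n : ℕ} (G : Finset (Edge n)) : Finset (Fin n) :=
  univ.filter (fun v => ∀ e ∈ G, e.1.1 ≠ v)

/-- At most one initial vertex and at most one terminal vertex. -/
def allowed {n : ℕ} (G : Finset (Edge n)) : Prop :=
  (initials G).card ≤ 1 ∧ (terminals G).card ≤ 1

instance {n : ℕ} (G : Finset (Edge n)) : Decidable (allowed G) := by
  unfold allowed; infer_instance

/-- Examination of the edge `e` when the current graph is `G`: delete it unless this would leave
more than one initial vertex or more than one terminal vertex. -/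
def examine {n : ℕ} (G : Finset (Edge n)) (e : Edge n) : Finset (Edge n) :=
  if allowed (G.erase e) then G.erase e else G

/-- The orderings of all the edges. -/
abbrev EdgeOrder (n : ℕ) := Fin (Fintype.card (Edge n)) ≃ Edge n

/-- The output of the process when the edges are examined in the order
`σ 0, σ 1, σ 2, ...`, starting from the complete graph. -/
def output {n : ℕ} (σ : EdgeOrder n) : Finset (Edge n) := (List.ofFn σ).foldl examine univ

/-- `p` is a directed path with `k` edges in the graph with edge set `G`. -/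
def IsPath {n : ℕ} (G : Finset (Edge n)) (k : ℕ) (p : Fin (k + 1) → Fin n) : Prop :=
  ∀ i : Fin k, ∃ h : p i.castSucc < p i.succ, (⟨(p i.castSucc, p i.succ), h⟩ : Edge n) ∈ G

/-- The maximum directed path length. -/
noncomputable def maxLen {n : ℕ} (G : Finset (Edge n)) : ℕ := sSup {k | ∃ p, IsPath G k p}

/-- `E[L_n]`: the average of the maximum directed path length of the output over all orderings of
the edges. -/
noncomputable def expL (n : ℕ) : ℝ :=
  (∑ σ : EdgeOrder n, (maxLen (output σ) : ℝ)) / (Fintype.card (EdgeOrder n) : ℝ)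

section process

variable {n : ℕ}

lemma examine_subset (G : Finset (Edge n)) (e : Edge n) : examine G e ⊆ G := by
  unfold examine
  split_ifs
  · exact erase_subset _ _
  · exact Subset.refl _

lemma foldl_subset (l : List (Edge n)) : ∀ G : Finset (Edge n), l.foldl examine G ⊆ G := by
  induction l with
  | nil => intro G; exact Subset.refl _
  | cons e l ih =>
    intro G
    exact (ih _).trans (examine_subset G e)

lemma mem_foldl_of_notMem (l : List (Edge n)) : ∀ (G : Finset (Edge n)) (f : Edge n), f ∉ l →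
    f ∈ G → f ∈ l.foldl examine G := by
  induction l with
  | nil => intro G f _ hf; exact hf
  | cons e l ih =>
    intro G f hf hG
    rw [List.mem_cons, not_or] at hf
    refine ih _ f hf.2 ?_
    unfold examine
    split_ifs
    · exact mem_erase.2 ⟨hf.1, hG⟩
    · exact hG

lemma allowed_foldl (l : List (Edge n)) : ∀ G : Finset (Edge n), allowed G →
    allowed (l.foldl examine G) := by
  induction l with
  | nil => intro G h; exact h
  | cons e l ih =>
    intro G h
    refine ih _ ?_
    unfold examine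
    split_ifs with h1
    · exact h1
    · exact h

lemma allowed_univ : allowed (univ : Finset (Edge n)) := by
  constructor
  · rw [card_le_one]
    intro a ha b hb
    simp only [initials, mem_filter, mem_univ, true_and, forall_const] at ha hb
    by_contra hne
    rcases lt_or_gt_of_ne hne with h | h
    · exact hb ⟨(a, b), h⟩ rfl
    · exact ha ⟨(b, a), h⟩ rfl
  · rw [card_le_one]
    intro a ha b hb
    simp only [terminals, mem_filter, mem_univ, true_and, forall_const] at ha hb
    by_contra hne
    rcases lt_or_gt_of_ne hne with h | h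
    · exact ha ⟨(a, b), h⟩ rfl
    · exact hb ⟨(b, a), h⟩ rfl

/-- all incoming edges of `v` -/
def inE (v : Fin n) : Finset (Edge n) := univ.filter (fun e => e.1.2 = v)

/-- all outgoing edges of `v` -/
def outE (v : Fin n) : Finset (Edge n) := univ.filter (fun e => e.1.1 = v)

/-- `e` is the last edge of `A` in the order `σ` -/
def lastIn (σ : EdgeOrder n) (A : Finset (Edge n)) (e : Edge n) : Prop :=
  e ∈ A ∧ ∀ f ∈ A, σ.symm f ≤ σ.symm e

instance (σ : EdgeOrder n) (A : Finset (Edge n)) (e : Edge n) : Decidable (lastIn σ A e) := by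
  unfold lastIn; infer_instance

/-- splitting of the list of edges at `e` -/
lemma split_list (σ : EdgeOrder n) (e : Edge n) : ∃ l1 l2 : List (Edge n),
    List.ofFn σ = l1 ++ e :: l2 ∧ (∀ f, f ∈ l1 ↔ σ.symm f < σ.symm e) ∧
    (∀ f, f ∈ l2 ↔ σ.symm e < σ.symm f) := by
  have hmem : e ∈ List.ofFn σ := by
    rw [List.mem_ofFn]
    exact ⟨σ.symm e, by simp⟩
  obtain ⟨l1, l2, hl⟩ := List.append_of_mem hmem
  have hp : (List.ofFn σ).Pairwise (fun a b => σ.symm a < σ.symm b) := by
    rw [List.pairwise_ofFn]
    intro i j hij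
    simpa using hij
  rw [hl, List.pairwise_append] at hp
  obtain ⟨-, hp2, hp3⟩ := hp
  rw [List.pairwise_cons] at hp2
  have hall : ∀ f, f ∈ l1 ∨ f = e ∨ f ∈ l2 := by
    intro f
    have : f ∈ List.ofFn σ := by
      rw [List.mem_ofFn]
      exact ⟨σ.symm f, by simp⟩
    rw [hl, List.mem_append, List.mem_cons] at this
    exact this
  refine ⟨l1, l2, hl, ?_, ?_⟩
  · intro f
    constructor
    · intro hf
      exact hp3 f hf e (List.mem_cons_self)
    · intro hf
      rcases hall f with h | h | h
      · exact h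
      · rw [h] at hf; exact absurd hf (lt_irrefl _)
      · exact absurd (hp2.1 f h) (not_lt.2 hf.le)
  · intro f
    constructor
    · intro hf
      exact hp2.1 f hf
    · intro hf
      rcases hall f with h | h | h
      · exact absurd (hp3 f h e (List.mem_cons_self)) (not_lt.2 hf.le)
      · rw [h] at hf; exact absurd hf (lt_irrefl _)
      · exact h

/-- Every edge of the output is the last incoming edge of its head or the last outgoing edge of its
tail. -/
lemma output_last (σ : EdgeOrder n) {e : Edge n} (he : e ∈ output σ) :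
    lastIn σ (inE e.1.2) e ∨ lastIn σ (outE e.1.1) e := by
  obtain ⟨l1, l2, hl, h1, h2⟩ := split_list σ e
  unfold output at he
  rw [hl, List.foldl_append, List.foldl_cons] at he
  set G := l1.foldl examine univ with hG
  have hG1 : allowed G := allowed_foldl l1 _ allowed_univ
  have he2 : e ∈ examine G e := foldl_subset _ _ he
  have hna : ¬ allowed (G.erase e) := by
    intro h
    unfold examine at he2
    rw [if_pos h] at he2
    exact absurd he2 (notMem_erase e G)
  have hmem : ∀ f, f ∉ G → σ.symm f < σ.symm e := by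
    intro f hf
    rw [← h1]
    by_contra hcon
    exact hf (mem_foldl_of_notMem l1 univ f hcon (mem_univ f))
  unfold allowed at hna hG1
  rw [not_and_or, not_le, not_le] at hna
  rcases hna with hna | hna
  · left
    have h3 : ∃ v ∈ initials (G.erase e), v ∉ initials G := by
      by_contra hcon
      push Not at hcon
      have := card_le_card (show initials (G.erase e) ⊆ initials G from hcon)
      omega
    obtain ⟨v, hv1, hv2⟩ := h3
    simp only [initials, mem_filter, mem_univ, true_and] at hv1 hv2
    push Not at hv2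
    obtain ⟨f, hf1, hf2⟩ := hv2
    have hfe : f = e := by
      by_contra hne
      exact hv1 f (mem_erase.2 ⟨hne, hf1⟩) hf2
    subst hfe
    refine ⟨by simp [inE], fun g hg => ?_⟩
    simp only [inE, mem_filter, mem_univ, true_and] at hg
    by_cases hgf : g = f
    · rw [hgf]
    · apply (hmem g _).le
      intro hgG
      exact hv1 g (mem_erase.2 ⟨hgf, hgG⟩) (hg.trans hf2)
  · right
    have h3 : ∃ v ∈ terminals (G.erase e), v ∉ terminals G := by
      by_contra hcon
      push Not at hcon
      have := card_le_card (show terminals (G.erase e) ⊆ terminals G from hcon)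
      omega
    obtain ⟨v, hv1, hv2⟩ := h3
    simp only [terminals, mem_filter, mem_univ, true_and] at hv1 hv2
    push Not at hv2
    obtain ⟨f, hf1, hf2⟩ := hv2
    have hfe : f = e := by
      by_contra hne
      exact hv1 f (mem_erase.2 ⟨hne, hf1⟩) hf2
    subst hfe
    refine ⟨by simp [outE], fun g hg => ?_⟩
    simp only [outE, mem_filter, mem_univ, true_and] at hg
    by_cases hgf : g = f
    · rw [hgf]
    · apply (hmem g _).le
      intro hgG
      exact hv1 g (mem_erase.2 ⟨hgf, hgG⟩) (hg.trans hf2)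

/-- If no edge with the same head is the last outgoing edge of its tail, then the last incoming
edge is kept. -/
lemma mem_output (σ : EdgeOrder n) {e : Edge n} (he : lastIn σ (inE e.1.2) e)
    (hgood : ∀ f ∈ inE e.1.2, ¬ lastIn σ (outE f.1.1) f) : e ∈ output σ := by
  obtain ⟨l1, l2, hl, h1, h2⟩ := split_list σ e
  have hout : output σ = l2.foldl examine (examine (l1.foldl examine univ) e) := by
    unfold output
    rw [hl, List.foldl_append, List.foldl_cons]
  set G := l1.foldl examine univ with hG
  have hmemG : ∀ f, f ∉ l1 → f ∈ G := fun f hf => mem_foldl_of_notMem l1 univ f hf (mem_univ f)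
  have heG : e ∈ G := hmemG e (by rw [h1]; exact lt_irrefl _)
  have hel2 : e ∉ l2 := by rw [h2]; exact lt_irrefl _
  -- the other incoming edges have been deleted
  have hdel : ∀ f ∈ inE e.1.2, f ≠ e → f ∉ G := by
    intro f hf hne hfG
    have hle := he.2 f hf
    have hlt : σ.symm f < σ.symm e := lt_of_le_of_ne hle fun h => hne (σ.symm.injective h)
    have hfl2 : f ∉ l2 := by
      rw [h2]
      exact not_lt.2 hlt.le
    have hf1 : f ∈ examine G e := by
      unfold examine
      split_ifs
      · exact mem_erase.2 ⟨hne, hfG⟩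
      · exact hfG
    have hfo : f ∈ output σ := by
      rw [hout]
      exact mem_foldl_of_notMem l2 _ f hfl2 hf1
    have hf2 : f.1.2 = e.1.2 := by simpa [inE] using hf
    rcases output_last σ hfo with h | h
    · have h3 := h.2 e (by simp [inE, hf2])
      exact absurd hlt (not_lt.2 h3)
    · exact hgood f hf h
  have hnot : ¬ allowed (G.erase e) := by
    intro h
    have hcard := h.1
    rw [card_le_one] at hcard
    have hb : e.1.2 ∈ initials (G.erase e) := by
      simp only [initials, mem_filter, mem_univ, true_and]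
      intro f hf hfe
      rw [mem_erase] at hf
      exact hdel f (by simp [inE, hfe]) hf.1 hf.2
    have hpos : 0 < n := Fin.pos e.1.1
    have h0 : (⟨0, hpos⟩ : Fin n) ∈ initials (G.erase e) := by
      simp only [initials, mem_filter, mem_univ, true_and]
      intro f _ hf0
      have := f.2
      rw [hf0] at this
      exact absurd this (by rw [Fin.lt_def]; simp)
    have := hcard _ hb _ h0
    have hlt := e.2
    rw [this, Fin.lt_def] at hlt
    simp at hlt
  rw [hout]
  apply mem_foldl_of_notMem l2 _ e hel2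
  unfold examine
  rw [if_neg hnot]
  exact heG

end process

section counting

variable {n : ℕ}

lemma lastIn_unique (σ : EdgeOrder n) {A : Finset (Edge n)} {e f : Edge n} (he : lastIn σ A e)
    (hf : lastIn σ A f) : e = f :=
  σ.symm.injective (le_antisymm (hf.2 e he.1) (he.2 f hf.1))

lemma exists_last (σ : EdgeOrder n) {A : Finset (Edge n)} (hA : A.Nonempty) :
    ∃ e, lastIn σ A e := by
  obtain ⟨e, he, hmax⟩ := exists_max_image A σ.symm hA
  exact ⟨e, he, hmax⟩

lemma lastIn_trans_of_mem (σ : EdgeOrder n) {A : Finset (Edge n)} {x y : Edge n} (hx : x ∈ A)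
    (hy : y ∈ A) (e : Edge n) :
    lastIn (σ.trans (Equiv.swap x y)) A e ↔ lastIn σ A (Equiv.swap x y e) := by
  have hmem : ∀ f, Equiv.swap x y f ∈ A ↔ f ∈ A := by
    intro f
    by_cases h1 : f = x
    · subst h1; simp [hx, hy]
    by_cases h2 : f = y
    · subst h2; simp [hx, hy]
    rw [Equiv.swap_apply_of_ne_of_ne h1 h2]
  unfold lastIn
  rw [hmem]
  simp only [Equiv.symm_trans_apply, Equiv.symm_swap]
  constructor
  · rintro ⟨h1, h2⟩
    refine ⟨h1, fun f hf => ?_⟩
    have := h2 (Equiv.swap x y f) ((hmem f).2 hf)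
    simpa using this
  · rintro ⟨h1, h2⟩
    exact ⟨h1, fun f hf => h2 _ ((hmem f).2 hf)⟩

lemma lastIn_trans_of_disjoint (σ : EdgeOrder n) {A : Finset (Edge n)} {x y : Edge n}
    (hx : x ∉ A) (hy : y ∉ A) (e : Edge n) :
    lastIn (σ.trans (Equiv.swap x y)) A e ↔ lastIn σ A e := by
  have hfix : ∀ f ∈ A, Equiv.swap x y f = f := fun f hf =>
    Equiv.swap_apply_of_ne_of_ne (fun h => hx (h ▸ hf)) (fun h => hy (h ▸ hf))
  unfold lastIn
  simp only [Equiv.symm_trans_apply, Equiv.symm_swap]
  constructor
  · rintro ⟨h1, h2⟩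
    refine ⟨h1, fun f hf => ?_⟩
    have := h2 f hf
    rwa [hfix f hf, hfix e h1] at this
  · rintro ⟨h1, h2⟩
    refine ⟨h1, fun f hf => ?_⟩
    rw [hfix f hf, hfix e h1]
    exact h2 f hf

/-- composition with a swap, as a permutation of the orders -/
def swapEquiv (x y : Edge n) : EdgeOrder n ≃ EdgeOrder n where
  toFun σ := σ.trans (Equiv.swap x y)
  invFun σ := σ.trans (Equiv.swap x y)
  left_inv σ := Equiv.ext fun i => by simp
  right_inv σ := Equiv.ext fun i => by simp

/-- **Swap lemma.** -/
lemma sum_last (A : Finset (Edge n)) (F : EdgeOrder n → ℝ)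
    (hF : ∀ x ∈ A, ∀ y ∈ A, ∀ σ, F (σ.trans (Equiv.swap x y)) = F σ) {e : Edge n} (he : e ∈ A) :
    (A.card : ℝ) * ∑ σ : EdgeOrder n, (if lastIn σ A e then F σ else 0) = ∑ σ, F σ := by
  have h1 : ∀ x ∈ A, ∑ σ : EdgeOrder n, (if lastIn σ A x then F σ else 0) =
      ∑ σ : EdgeOrder n, (if lastIn σ A e then F σ else 0) := by
    intro x hx
    rw [← (swapEquiv x e).sum_comp]
    refine sum_congr rfl fun σ _ => ?_
    change (if lastIn (σ.trans (Equiv.swap x e)) A x then F (σ.trans (Equiv.swap x e)) else 0) = _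
    rw [hF x hx e he]
    have : lastIn (σ.trans (Equiv.swap x e)) A x ↔ lastIn σ A e := by
      rw [lastIn_trans_of_mem σ hx he, Equiv.swap_apply_left]
    simp only [this]
  have h2 : ∑ x ∈ A, ∑ σ : EdgeOrder n, (if lastIn σ A x then F σ else 0) = ∑ σ, F σ := by
    rw [sum_comm]
    refine sum_congr rfl fun σ _ => ?_
    obtain ⟨z, hz⟩ := exists_last σ ⟨e, he⟩
    rw [sum_eq_single z]
    · rw [if_pos hz]
    · intro b _ hb
      rw [if_neg]
      intro h
      exact hb (lastIn_unique σ h hz)
    · intro h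
      exact absurd hz.1 h
  rw [← h2, sum_congr rfl h1, sum_const, nsmul_eq_mul]

/-- The product formula for the last elements of disjoint sets. -/
lemma sum_last_family {ι : Type*} [DecidableEq ι] (I : Finset ι) (A : ι → Finset (Edge n))
    (e : ι → Edge n) (he : ∀ i ∈ I, e i ∈ A i)
    (hdis : ∀ i ∈ I, ∀ j ∈ I, i ≠ j → Disjoint (A i) (A j)) :
    (∏ i ∈ I, ((A i).card : ℝ)) *
      ∑ σ : EdgeOrder n, (if ∀ i ∈ I, lastIn σ (A i) (e i) then (1 : ℝ) else 0) =
      Fintype.card (EdgeOrder n) := by
  induction I using Finset.induction_on with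
  | empty => simp
  | insert j I hj ih =>
    have ih' := ih (fun i hi => he i (mem_insert_of_mem hi))
      (fun i hi k hk => hdis i (mem_insert_of_mem hi) k (mem_insert_of_mem hk))
    rw [prod_insert hj, ← ih']
    have h1 : ∀ σ : EdgeOrder n,
        (if ∀ i ∈ insert j I, lastIn σ (A i) (e i) then (1 : ℝ) else 0) =
        if lastIn σ (A j) (e j) then (if ∀ i ∈ I, lastIn σ (A i) (e i) then (1 : ℝ) else 0)
          else 0 := by
      intro σ
      simp only [forall_mem_insert]
      split_ifs <;> simp_all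
    have h2 := sum_last (A j) (fun σ => if ∀ i ∈ I, lastIn σ (A i) (e i) then (1 : ℝ) else 0)
      (by
        intro x hx y hy σ
        have hmem : ∀ i ∈ I, x ∉ A i ∧ y ∉ A i := by
          intro i hi
          have hne : j ≠ i := by rintro rfl; exact hj hi
          have hd := hdis j (mem_insert_self _ _) i (mem_insert_of_mem hi) hne
          exact ⟨disjoint_left.1 hd hx, disjoint_left.1 hd hy⟩
        have h3 : (∀ i ∈ I, lastIn (σ.trans (Equiv.swap x y)) (A i) (e i)) ↔
            ∀ i ∈ I, lastIn σ (A i) (e i) := by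
          refine forall₂_congr fun i hi => ?_
          exact lastIn_trans_of_disjoint σ (hmem i hi).1 (hmem i hi).2 _
        simp only [h3]) (he j (mem_insert_self _ _))
    rw [sum_congr rfl fun σ _ => h1 σ, mul_comm ((A j).card : ℝ), mul_assoc, h2]

end counting

section lower

variable {n : ℕ}

lemma card_inE (v : Fin n) : (inE v).card = v.val := by
  have h : (inE v).card = (Iio v).card := by
    apply card_bij (fun e _ => e.1.1)
    · intro e he
      simp only [inE, mem_filter, mem_univ, true_and] at he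
      rw [mem_Iio, ← he]
      exact e.2
    · intro e he f hf hef
      simp only [inE, mem_filter, mem_univ, true_and] at he hf
      exact Subtype.ext (Prod.ext hef (he.trans hf.symm))
    · intro u hu
      rw [mem_Iio] at hu
      exact ⟨⟨(u, v), hu⟩, by simp [inE], rfl⟩
  rw [h, Fin.card_Iio]

lemma card_outE (v : Fin n) : (outE v).card = n - 1 - v.val := by
  have h : (outE v).card = (Ioi v).card := by
    apply card_bij (fun e _ => e.1.2)
    · intro e he
      simp only [outE, mem_filter, mem_univ, true_and] at he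
      rw [mem_Ioi, ← he]
      exact e.2
    · intro e he f hf hef
      simp only [outE, mem_filter, mem_univ, true_and] at he hf
      exact Subtype.ext (Prod.ext (he.trans hf.symm) hef)
    · intro u hu
      rw [mem_Ioi] at hu
      exact ⟨⟨(v, u), hu⟩, by simp [outE], rfl⟩
  rw [h, Fin.card_Ioi]

/-- depth of `v` in the tree of the last incoming edges -/
noncomputable def dep (σ : EdgeOrder n) (v : Fin n) : ℕ :=
  ∑ u : {u : Fin n // u < v}, if lastIn σ (inE v) ⟨(u.1, v), u.2⟩ then dep σ u.1 + 1 else 0
termination_by v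
decreasing_by exact u.2

lemma dep_eq (σ : EdgeOrder n) (v : Fin n) : dep σ v =
    ∑ u : {u : Fin n // u < v}, if lastIn σ (inE v) ⟨(u.1, v), u.2⟩ then dep σ u.1 + 1 else 0 := by
  rw [dep]

lemma dep_of_last (σ : EdgeOrder n) {e : Edge n} (he : lastIn σ (inE e.1.2) e) :
    dep σ e.1.2 = dep σ e.1.1 + 1 := by
  rw [dep_eq, sum_eq_single ⟨e.1.1, e.2⟩]
  · rw [if_pos]
    exact he
  · intro u _ hu
    rw [if_neg]
    intro h
    have := lastIn_unique σ h he
    apply hu
    apply Subtype.ext
    exact congrArg (fun e : Edge n => e.1.1) this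
  · intro h
    exact absurd (mem_univ _) h

lemma dep_zero (σ : EdgeOrder n) {v : Fin n} (hv : v.val = 0) : dep σ v = 0 := by
  rw [dep_eq]
  apply sum_eq_zero
  intro u _
  have := u.2
  rw [Fin.lt_def] at this
  omega

lemma exists_last_in (σ : EdgeOrder n) {v : Fin n} (hv : v.val ≠ 0) :
    ∃ e : Edge n, e.1.2 = v ∧ lastIn σ (inE e.1.2) e := by
  have hne : (inE v).Nonempty := by
    rw [← card_pos, card_inE]
    omega
  obtain ⟨e, he⟩ := exists_last σ hne
  have : e.1.2 = v := by
    have := he.1
    simpa [inE] using this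
  refine ⟨e, this, ?_⟩
  rw [this]
  exact he

lemma dep_inv (σ : EdgeOrder n) (v : Fin n) {x y : Edge n} (hx : x ∈ inE v) (hy : y ∈ inE v) :
    ∀ u : Fin n, u < v → dep (σ.trans (Equiv.swap x y)) u = dep σ u := by
  intro u
  induction u using WellFoundedLT.induction with
  | _ u ih =>
    intro huv
    rw [dep_eq, dep_eq]
    refine sum_congr rfl fun w _ => ?_
    rw [ih w.1 w.2 (w.2.trans huv)]
    have hx' : x ∉ inE u := by
      intro h
      simp only [inE, mem_filter, mem_univ, true_and] at hx h
      rw [hx] at h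
      exact absurd huv (by rw [h]; exact lt_irrefl _)
    have hy' : y ∉ inE u := by
      intro h
      simp only [inE, mem_filter, mem_univ, true_and] at hy h
      rw [hy] at h
      exact absurd huv (by rw [h]; exact lt_irrefl _)
    simp only [lastIn_trans_of_disjoint σ hx' hy']

/-- sum of the depths over the orders -/
noncomputable def sumDep (v : Fin n) : ℝ := ∑ σ : EdgeOrder n, (dep σ v : ℝ)

lemma sumDep_rec (v : Fin n) : (v.val : ℝ) * sumDep v =
    ∑ u : {u : Fin n // u < v}, (sumDep u.1 + Fintype.card (EdgeOrder n)) := by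
  unfold sumDep
  have h1 : ∀ σ : EdgeOrder n, (dep σ v : ℝ) = ∑ u : {u : Fin n // u < v},
      if lastIn σ (inE v) ⟨(u.1, v), u.2⟩ then ((dep σ u.1 : ℝ) + 1) else 0 := by
    intro σ
    rw [dep_eq]
    push_cast
    rfl
  rw [sum_congr rfl fun σ _ => h1 σ, sum_comm, mul_sum]
  refine sum_congr rfl fun u _ => ?_
  have h2 := sum_last (inE v) (fun σ => (dep σ u.1 : ℝ) + 1) (by
    intro x hx y hy σ
    rw [dep_inv σ v hx hy u.1 u.2]) (e := ⟨(u.1, v), u.2⟩) (by simp [inE])
  rw [card_inE] at h2
  rw [h2, sum_add_distrib, sum_const, nsmul_eq_mul, mul_one, card_univ]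

lemma sum_harmonic (k : ℕ) : ∑ u ∈ range k, ((harmonic u : ℝ) + 1) = k * (harmonic k : ℝ) := by
  induction k with
  | zero => simp
  | succ k ih =>
    rw [sum_range_succ, ih, harmonic_succ]
    push_cast
    have : ((k : ℝ) + 1) ≠ 0 := by positivity
    field_simp
    ring

lemma sumDep_eq (v : Fin n) : sumDep v = (harmonic v.val : ℝ) * Fintype.card (EdgeOrder n) := by
  induction v using WellFoundedLT.induction with
  | _ v ih =>
    by_cases hv : v.val = 0
    · unfold sumDep
      rw [hv]
      simp [dep_zero _ hv]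
    · have h1 := sumDep_rec v
      have h2 : ∑ u : {u : Fin n // u < v}, (sumDep u.1 + Fintype.card (EdgeOrder n)) =
          ∑ u ∈ range v.val, ((harmonic u : ℝ) + 1) * Fintype.card (EdgeOrder n) := by
        symm
        refine sum_bij' (fun u hu => (⟨⟨u, (mem_range.1 hu).trans v.2⟩, mem_range.1 hu⟩ :
          {u : Fin n // u < v})) (fun u _ => u.1.val) ?_ ?_ ?_ ?_ ?_
        · intro u hu
          exact mem_univ _
        · intro u _
          exact mem_range.2 u.2
        · intro u hu
          rfl
        · intro u _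
          rfl
        · intro u hu
          rw [ih _ (mem_range.1 hu)]
          ring
      rw [h2, ← sum_mul, sum_harmonic] at h1
      have hv' : (v.val : ℝ) ≠ 0 := by exact_mod_cast hv
      apply mul_left_cancel₀ hv'
      rw [h1]
      ring

lemma dep_le (σ : EdgeOrder n) (v : Fin n) : dep σ v ≤ v.val := by
  induction v using WellFoundedLT.induction with
  | _ v ih =>
    by_cases hv : v.val = 0
    · rw [dep_zero σ hv]; exact Nat.zero_le _
    · obtain ⟨e, he1, he2⟩ := exists_last_in σ hv
      subst he1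
      rw [dep_of_last σ he2]
      have h1 := ih e.1.1 e.2
      have h2 := e.2
      rw [Fin.lt_def] at h2
      omega

lemma path_strictMono {G : Finset (Edge n)} {k : ℕ} {p : Fin (k + 1) → Fin n}
    (h : IsPath G k p) : StrictMono p := by
  rw [Fin.strictMono_iff_lt_succ]
  intro i
  exact (h i).choose

lemma path_length_lt {G : Finset (Edge n)} {k : ℕ} {p : Fin (k + 1) → Fin n}
    (h : IsPath G k p) : k < n := by
  have := Fintype.card_le_of_injective p (path_strictMono h).injective
  simpa using this

lemma le_maxLen {G : Finset (Edge n)} {k : ℕ} {p : Fin (k + 1) → Fin n} (h : IsPath G k p) :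
    k ≤ maxLen G := by
  apply le_csSup
  · refine ⟨n, ?_⟩
    rintro j ⟨q, hq⟩
    exact (path_length_lt hq).le
  · exact ⟨p, h⟩

/-- no edge within the vertices `≤ m` is the last outgoing edge of its tail -/
def Good (σ : EdgeOrder n) (m : ℕ) : Prop :=
  ∀ f : Edge n, f.1.2.val ≤ m → ¬ lastIn σ (outE f.1.1) f

lemma exists_path (σ : EdgeOrder n) {m : ℕ} (hg : Good σ m) (v : Fin n) (hv : v.val ≤ m) :
    ∃ (k : ℕ) (p : Fin (k + 1) → Fin n), k = dep σ v ∧ IsPath (output σ) k p ∧
      p (Fin.last k) = v := by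
  induction v using WellFoundedLT.induction with
  | _ v ih =>
    by_cases hv0 : v.val = 0
    · refine ⟨0, fun _ => v, (dep_zero σ hv0).symm, fun i => i.elim0, rfl⟩
    · obtain ⟨e, he1, he2⟩ := exists_last_in σ hv0
      subst he1
      have hlt := e.2
      rw [Fin.lt_def] at hlt
      obtain ⟨k, p, hk, hp, hpl⟩ := ih e.1.1 e.2 (by omega)
      have heo : e ∈ output σ := by
        apply mem_output σ he2
        intro f hf
        apply hg f
        have : f.1.2 = e.1.2 := by simpa [inE] using hf
        rw [this]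
        exact hv
      refine ⟨k + 1, Fin.snoc p e.1.2, by rw [dep_of_last σ he2, hk], ?_, ?_⟩
      · intro i
        refine Fin.lastCases ?_ (fun j => ?_) i
        · have h1 : (Fin.snoc p e.1.2 : Fin (k + 1 + 1) → Fin n) (Fin.castSucc (Fin.last k)) =
              e.1.1 := by
            rw [Fin.snoc_castSucc (α := fun _ => Fin n), hpl]
          have h2 : (Fin.snoc p e.1.2 : Fin (k + 1 + 1) → Fin n) (Fin.succ (Fin.last k)) =
              e.1.2 := by
            rw [Fin.succ_last, Fin.snoc_last (α := fun _ => Fin n)]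
          simp only [h1, h2]
          exact ⟨e.2, heo⟩
        · have h1 : (Fin.snoc p e.1.2 : Fin (k + 1 + 1) → Fin n) (Fin.castSucc (Fin.castSucc j)) =
              p j.castSucc := by
            rw [Fin.snoc_castSucc (α := fun _ => Fin n)]
          have h2 : (Fin.snoc p e.1.2 : Fin (k + 1 + 1) → Fin n) (Fin.succ (Fin.castSucc j)) =
              p j.succ := by
            rw [Fin.succ_castSucc, Fin.snoc_castSucc (α := fun _ => Fin n)]
          simp only [h1, h2]
          exact hp j
      · rw [Fin.snoc_last (α := fun _ => Fin n)]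

lemma dep_le_maxLen (σ : EdgeOrder n) {m : ℕ} (hg : Good σ m) (v : Fin n) (hv : v.val ≤ m) :
    dep σ v ≤ maxLen (output σ) := by
  obtain ⟨k, p, hk, hp, -⟩ := exists_path σ hg v hv
  rw [← hk]
  exact le_maxLen hp

open Classical in
lemma card_bad (m : ℕ) (hm : m + 1 < n) :
    (((univ : Finset (EdgeOrder n)).filter (fun σ => ¬ Good σ m)).card : ℝ) ≤
      ((m : ℝ) + 1) ^ 2 / ((n : ℝ) - 1 - m) * Fintype.card (EdgeOrder n) := by
  have hpos : (0 : ℝ) < (n : ℝ) - 1 - m := by
    have : ((m + 1 : ℕ) : ℝ) < n := by exact_mod_cast hm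
    push_cast at this
    linarith
  set B := (univ : Finset (Edge n)).filter (fun f => f.1.2.val ≤ m) with hB
  have hBcard : (B.card : ℝ) ≤ ((m : ℝ) + 1) ^ 2 := by
    have h1 : B.card ≤ (range (m + 1) ×ˢ range (m + 1)).card := by
      apply card_le_card_of_injOn (fun f => (f.1.1.val, f.1.2.val))
      · intro f hf
        rw [hB, mem_coe, mem_filter] at hf
        have h2 := f.2
        rw [Fin.lt_def] at h2
        rw [mem_coe, mem_product, mem_range, mem_range]
        simp only
        omega
      · intro f _ g _ hfg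
        simp only [Prod.mk.injEq] at hfg
        exact Subtype.ext (Prod.ext (Fin.ext hfg.1) (Fin.ext hfg.2))
    rw [card_product, card_range] at h1
    calc (B.card : ℝ) ≤ (((m + 1) * (m + 1) : ℕ) : ℝ) := by exact_mod_cast h1
      _ = ((m : ℝ) + 1) ^ 2 := by push_cast; ring
  have h1 : (((univ : Finset (EdgeOrder n)).filter (fun σ => ¬ Good σ m)).card : ℝ) ≤
      ∑ f ∈ B, ∑ σ : EdgeOrder n, (if lastIn σ (outE f.1.1) f then (1 : ℝ) else 0) := by
    rw [sum_comm, card_filter]
    push_cast
    apply sum_le_sum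
    intro σ _
    split_ifs with h
    · exact sum_nonneg fun f _ => by split_ifs <;> norm_num
    · unfold Good at h
      push Not at h
      obtain ⟨f, hf1, hf2⟩ := h
      calc (1 : ℝ) = if lastIn σ (outE f.1.1) f then (1 : ℝ) else 0 := by rw [if_pos hf2]
        _ ≤ _ := single_le_sum (f := fun f : Edge n =>
            if lastIn σ (outE f.1.1) f then (1 : ℝ) else 0)
            (fun g _ => by split_ifs <;> norm_num) (by rw [hB, mem_filter]; exact ⟨mem_univ _, hf1⟩)
  refine h1.trans ?_
  have h2 : ∀ f ∈ B, ∑ σ : EdgeOrder n, (if lastIn σ (outE f.1.1) f then (1 : ℝ) else 0) ≤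
      1 / ((n : ℝ) - 1 - m) * Fintype.card (EdgeOrder n) := by
    intro f hf
    have h3 := sum_last (outE f.1.1) (fun _ => (1 : ℝ)) (fun _ _ _ _ _ => rfl) (e := f)
      (by simp [outE])
    rw [card_outE, sum_const, nsmul_eq_mul, mul_one, card_univ] at h3
    have hf' := (mem_filter.1 hf).2
    have h4 := f.2
    rw [Fin.lt_def] at h4
    have h5 : (n : ℝ) - 1 - m ≤ ((n - 1 - f.1.1.val : ℕ) : ℝ) := by
      have : n - 1 - m ≤ n - 1 - f.1.1.val := by omega
      have h6 : ((n - 1 - m : ℕ) : ℝ) = (n : ℝ) - 1 - m := by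
        rw [Nat.cast_sub (by omega), Nat.cast_sub (by omega)]
        push_cast
        ring
      rw [← h6]
      exact_mod_cast this
    have h7 : 0 ≤ ∑ σ : EdgeOrder n, (if lastIn σ (outE f.1.1) f then (1 : ℝ) else 0) :=
      sum_nonneg fun _ _ => by split_ifs <;> norm_num
    rw [one_div, ← div_eq_inv_mul, le_div_iff₀ hpos, ← h3, mul_comm]
    exact mul_le_mul_of_nonneg_right h5 h7
  refine (sum_le_sum h2).trans ?_
  rw [sum_const, nsmul_eq_mul, ← mul_assoc]
  apply mul_le_mul_of_nonneg_right _ (Nat.cast_nonneg _)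
  rw [mul_one_div]
  exact div_le_div_of_nonneg_right hBcard hpos.le

lemma card_order_pos : (0 : ℝ) < Fintype.card (EdgeOrder n) := by
  have : Nonempty (EdgeOrder n) := ⟨(Fintype.equivFin (Edge n)).symm⟩
  exact_mod_cast Fintype.card_pos

lemma expL_lower (m : ℕ) (hm : m + 1 < n) :
    (harmonic m : ℝ) - m * (((m : ℝ) + 1) ^ 2 / ((n : ℝ) - 1 - m)) ≤ expL n := by
  classical
  unfold expL
  rw [le_div_iff₀ card_order_pos]
  have h1 : ∀ σ : EdgeOrder n, (dep σ ⟨m, by omega⟩ : ℝ) - (if ¬ Good σ m then (m : ℝ) else 0) ≤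
      maxLen (output σ) := by
    intro σ
    split_ifs with h
    · have h2 := dep_le_maxLen σ h ⟨m, by omega⟩ le_rfl
      rw [sub_zero]
      exact_mod_cast h2
    · have h2 := dep_le σ ⟨m, by omega⟩
      have h3 : (dep σ ⟨m, by omega⟩ : ℝ) ≤ m := by exact_mod_cast h2
      have h4 : (0 : ℝ) ≤ maxLen (output σ) := Nat.cast_nonneg _
      linarith
  refine le_trans ?_ (sum_le_sum fun σ _ => h1 σ)
  rw [sum_sub_distrib, ← sum_filter, sum_const, nsmul_eq_mul]
  have h2 := sumDep_eq (n := n) ⟨m, by omega⟩
  unfold sumDep at h2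
  rw [h2]
  have h3 := card_bad (n := n) m hm
  simp only
  nlinarith [Nat.cast_nonneg (α := ℝ) m]

end lower

section upper

variable {n : ℕ}

/-- the union of the two trees -/
def T (σ : EdgeOrder n) : Finset (Edge n) :=
  univ.filter (fun e => lastIn σ (inE e.1.2) e ∨ lastIn σ (outE e.1.1) e)

lemma output_subset_T (σ : EdgeOrder n) : output σ ⊆ T σ := by
  intro e he
  rw [T, mem_filter]
  exact ⟨mem_univ _, output_last σ he⟩

/-- lower path -/
def LP (σ : EdgeOrder n) (k h : ℕ) : Prop :=
  ∃ p : Fin (k + 1) → Fin n, IsPath (T σ) k p ∧ ∀ i, (p i).val < h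

/-- upper path -/
def UP (σ : EdgeOrder n) (k h : ℕ) : Prop :=
  ∃ p : Fin (k + 1) → Fin n, IsPath (T σ) k p ∧ ∀ i, h ≤ (p i).val

lemma split_path (σ : EdgeOrder n) (k h : ℕ) {p : Fin (2 * k + 1 + 1) → Fin n}
    (hp : IsPath (T σ) (2 * k + 1) p) : LP σ k h ∨ UP σ k h := by
  have hmono := path_strictMono hp
  by_cases hk : (p ⟨k, by omega⟩).val < h
  · left
    refine ⟨fun i => p ⟨i.val, by omega⟩, fun i => ?_, fun i => ?_⟩
    · exact hp ⟨i.val, by omega⟩
    · have h1 : p ⟨i.val, by omega⟩ ≤ p ⟨k, by omega⟩ := by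
        apply hmono.monotone
        rw [Fin.le_def]
        simp only
        omega
      rw [Fin.le_def] at h1
      simp only
      omega
  · right
    refine ⟨fun i => p ⟨k + i.val, by omega⟩, fun i => ?_, fun i => ?_⟩
    · exact hp ⟨k + i.val, by omega⟩
    · have h1 : p ⟨k, by omega⟩ ≤ p ⟨k + i.val, by omega⟩ := by
        apply hmono.monotone
        rw [Fin.le_def]
        simp only
        omega
      rw [Fin.le_def] at h1
      simp only
      omega

/-- reversal of the edges -/
def revE (e : Edge n) : Edge n := ⟨(Fin.rev e.1.2, Fin.rev e.1.1), Fin.rev_lt_rev.2 e.2⟩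

lemma revE_revE (e : Edge n) : revE (revE e) = e := by
  unfold revE
  apply Subtype.ext
  simp

/-- reversal as a permutation -/
def revEquiv : Edge n ≃ Edge n := ⟨revE, revE, revE_revE, revE_revE⟩

lemma lastIn_rev (σ : EdgeOrder n) (A : Finset (Edge n)) (e : Edge n) :
    lastIn (σ.trans revEquiv) (A.image revE) (revE e) ↔ lastIn σ A e := by
  have hinj : Function.Injective (revE : Edge n → Edge n) := revEquiv.injective
  unfold lastIn
  rw [hinj.mem_finset_image]
  have h1 : ∀ f : Edge n, (σ.trans revEquiv).symm (revE f) = σ.symm f := by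
    intro f
    rw [Equiv.symm_trans_apply]
    congr 1
    exact revE_revE f
  constructor
  · rintro ⟨h2, h3⟩
    refine ⟨h2, fun f hf => ?_⟩
    have := h3 (revE f) (mem_image_of_mem _ hf)
    rwa [h1, h1] at this
  · rintro ⟨h2, h3⟩
    refine ⟨h2, fun f hf => ?_⟩
    obtain ⟨g, hg, rfl⟩ := mem_image.1 hf
    rw [h1, h1]
    exact h3 g hg

lemma image_inE (v : Fin n) : (inE v).image revE = outE (Fin.rev v) := by
  ext e
  simp only [inE, outE, mem_image, mem_filter, mem_univ, true_and]
  constructor
  · rintro ⟨f, hf, rfl⟩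
    simp [revE, hf]
  · intro h
    refine ⟨revE e, ?_, revE_revE e⟩
    simp [revE, h]

lemma image_outE (v : Fin n) : (outE v).image revE = inE (Fin.rev v) := by
  ext e
  simp only [inE, outE, mem_image, mem_filter, mem_univ, true_and]
  constructor
  · rintro ⟨f, hf, rfl⟩
    simp [revE, hf]
  · intro h
    refine ⟨revE e, ?_, revE_revE e⟩
    simp [revE, h]

lemma mem_T_rev (σ : EdgeOrder n) {e : Edge n} (he : e ∈ T σ) :
    revE e ∈ T (σ.trans revEquiv) := by
  simp only [T, mem_filter, mem_univ, true_and] at he ⊢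
  rcases he with h | h
  · right
    have := (lastIn_rev σ _ e).2 h
    rw [image_inE] at this
    exact this
  · left
    have := (lastIn_rev σ _ e).2 h
    rw [image_outE] at this
    exact this

lemma UP_rev (σ : EdgeOrder n) {k h h' : ℕ} (hh : n ≤ h + h') (hu : UP σ k h) :
    LP (σ.trans revEquiv) k h' := by
  obtain ⟨p, hp, hph⟩ := hu
  refine ⟨fun i => Fin.rev (p (Fin.rev i)), fun i => ?_, fun i => ?_⟩
  · obtain ⟨h1, h2⟩ := hp (Fin.rev i)
    have h3 := mem_T_rev σ h2
    have e1 : Fin.rev i.castSucc = (Fin.rev i).succ := by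
      rw [Fin.rev_castSucc]
    have e2 : Fin.rev i.succ = (Fin.rev i).castSucc := by
      rw [Fin.rev_succ]
    simp only [e1, e2]
    exact ⟨Fin.rev_lt_rev.2 h1, h3⟩
  · have h1 := hph (Fin.rev i)
    have h2 := (p (Fin.rev i)).2
    simp only [Fin.val_rev]
    omega

open Classical in
/-- number of orders with a lower path -/
noncomputable def numLP (n k h : ℕ) : ℕ :=
  ((univ : Finset (EdgeOrder n)).filter (fun σ => LP σ k h)).card

open Classical in
lemma num_UP_le (k h h' : ℕ) (hh : n ≤ h + h') :
    ((univ : Finset (EdgeOrder n)).filter (fun σ => UP σ k h)).card ≤ numLP n k h' := by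
  unfold numLP
  apply card_le_card_of_injOn (fun σ => σ.trans revEquiv)
  · intro σ hσ
    simp only [coe_filter, mem_univ, true_and, Set.mem_ofPred_eq] at hσ ⊢
    exact UP_rev σ hh hσ
  · intro σ _ τ _ h
    have h1 : (σ.trans revEquiv).trans revEquiv.symm = (τ.trans revEquiv).trans revEquiv.symm := by
      rw [show σ.trans revEquiv = τ.trans revEquiv from h]
    simpa [Equiv.trans_assoc] using h1

lemma maxLen_mem {G : Finset (Edge n)} (hn : 0 < n) : ∃ p, IsPath G (maxLen G) p := by
  have hne : {k | ∃ p, IsPath G k p}.Nonempty := ⟨0, fun _ => ⟨0, hn⟩, fun i => i.elim0⟩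
  have hb : BddAbove {k | ∃ p, IsPath G k p} := by
    refine ⟨n, ?_⟩
    rintro j ⟨q, hq⟩
    exact (path_length_lt hq).le
  exact Nat.sSup_mem hne hb

lemma shorter_path {G : Finset (Edge n)} {k j : ℕ} (hjk : j ≤ k) {p : Fin (k + 1) → Fin n}
    (hp : IsPath G k p) : ∃ q, IsPath G j q :=
  ⟨fun i => p ⟨i.val, by omega⟩, fun i => hp ⟨i.val, by omega⟩⟩

lemma expL_upper (hn : 0 < n) (k h : ℕ) (hh : n ≤ 2 * h) :
    expL n ≤ 2 * k + 1 + 2 * n * ((numLP n k h : ℝ) / Fintype.card (EdgeOrder n)) := by
  classical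
  unfold expL
  rw [div_le_iff₀ card_order_pos, add_mul, mul_assoc (2 * (n : ℝ)),
    div_mul_cancel₀ _ card_order_pos.ne']
  have h1 : ∀ σ : EdgeOrder n, (maxLen (output σ) : ℝ) ≤ (2 * k + 1) +
      (n * (if LP σ k h then 1 else 0) + n * (if UP σ k h then 1 else 0)) := by
    intro σ
    obtain ⟨p, hp⟩ := maxLen_mem (G := output σ) hn
    by_cases hlen : maxLen (output σ) ≤ 2 * k + 1
    · have h2 : (maxLen (output σ) : ℝ) ≤ 2 * k + 1 := by exact_mod_cast hlen
      have h3 : (0 : ℝ) ≤ n * (if LP σ k h then 1 else 0) + n * (if UP σ k h then 1 else 0) := by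
        positivity
      linarith
    · obtain ⟨q, hq⟩ := shorter_path (by omega : 2 * k + 1 ≤ maxLen (output σ)) hp
      have hq' : IsPath (T σ) (2 * k + 1) q := fun i => by
        obtain ⟨h2, h3⟩ := hq i
        exact ⟨h2, output_subset_T σ h3⟩
      have h2 : (maxLen (output σ) : ℝ) ≤ n := by exact_mod_cast (path_length_lt hp).le
      have hk : (0 : ℝ) ≤ 2 * k + 1 := by positivity
      rcases split_path σ k h hq' with h3 | h3
      · rw [if_pos h3]
        have h4 : (0 : ℝ) ≤ n * (if UP σ k h then 1 else 0) := by positivity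
        linarith
      · rw [if_pos h3]
        have h4 : (0 : ℝ) ≤ n * (if LP σ k h then 1 else 0) := by positivity
        linarith
  refine (sum_le_sum fun σ _ => h1 σ).trans ?_
  rw [sum_add_distrib, sum_const, nsmul_eq_mul, sum_add_distrib, ← mul_sum, ← mul_sum,
    sum_boole, sum_boole]
  have h2 := num_UP_le (n := n) k h h (by omega)
  have h3 : (((univ : Finset (EdgeOrder n)).filter (fun σ => UP σ k h)).card : ℝ) ≤
      numLP n k h := by exact_mod_cast h2
  have h4 : (((univ : Finset (EdgeOrder n)).filter (fun σ => LP σ k h)).card : ℝ) =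
      numLP n k h := rfl
  rw [h4, card_univ]
  have hn' : (0 : ℝ) ≤ n := Nat.cast_nonneg _
  nlinarith

/-- number of orders for which a given path is in the union of the trees -/
lemma card_path_le {k h : ℕ} (hk : (n : ℝ) / 4 ≤ (n : ℝ) - h - k) (hkh : h + k ≤ n) (hn : 0 < n)
    (p : Fin (k + 1) → Fin n)
    (hp : StrictMono p) (hph : ∀ i, (p i).val < h) [DecidablePred fun σ => IsPath (T σ) k p] :
    (((univ : Finset (EdgeOrder n)).filter (fun σ => IsPath (T σ) k p)).card : ℝ) ≤
      (∏ i : Fin k, (1 / ((p i.succ).val : ℝ) + 4 / n)) * Fintype.card (EdgeOrder n) := by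
  classical
  have hlt : ∀ i : Fin k, p i.castSucc < p i.succ := fun i => hp (Fin.castSucc_lt_succ)
  let e : Fin k → Edge n := fun i => ⟨(p i.castSucc, p i.succ), hlt i⟩
  let A : Finset (Fin k) → Fin k → Finset (Edge n) := fun J i =>
    if i ∈ J then inE (p i.succ) else (outE (p i.castSucc)).filter (fun f => ∀ j ∈ J,
      f.1.2 ≠ p j.succ)
  have hA : ∀ J : Finset (Fin k),
      ∑ σ : EdgeOrder n, (if ∀ i ∈ (univ : Finset (Fin k)), lastIn σ (A J i) (e i) then (1 : ℝ)
        else 0) ≤
      ((∏ i ∈ J, 1 / ((p i.succ).val : ℝ)) * ∏ _i ∈ univ \ J, (4 / (n : ℝ))) *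
        Fintype.card (EdgeOrder n) := by
    intro J
    have h1 := sum_last_family (univ : Finset (Fin k)) (A J) e (by
      intro i _
      simp only [A, e]
      split_ifs with hi
      · simp [inE]
      · simp only [outE, mem_filter, mem_univ, true_and]
        intro j hj heq
        have := hp.injective heq
        rw [Fin.succ_inj] at this
        exact hi (this ▸ hj)) (by
      intro i _ j _ hij
      rw [disjoint_left]
      intro f hfi hfj
      simp only [A] at hfi hfj
      split_ifs at hfi hfj with h1 h2 h2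
      · simp only [inE, mem_filter, mem_univ, true_and] at hfi hfj
        have := hp.injective (hfi.symm.trans hfj)
        rw [Fin.succ_inj] at this
        exact hij this
      · simp only [inE, mem_filter, mem_univ, true_and] at hfi hfj
        exact hfj.2 i h1 hfi
      · simp only [inE, mem_filter, mem_univ, true_and] at hfi hfj
        exact hfi.2 j h2 hfj
      · simp only [outE, mem_filter, mem_univ, true_and] at hfi hfj
        have := hp.injective (hfi.1.symm.trans hfj.1)
        rw [Fin.castSucc_inj] at this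
        exact hij this)
    have hcard : ∀ i : Fin k, (if i ∈ J then ((p i.succ).val : ℝ) else (n : ℝ) / 4) ≤
        ((A J i).card : ℝ) := by
      intro i
      simp only [A]
      split_ifs with hi
      · rw [card_inE]
      · have h2 : (outE (p i.castSucc)).card ≤ ((outE (p i.castSucc)).filter (fun f => ∀ j ∈ J,
            f.1.2 ≠ p j.succ)).card + k := by
          have h3 : ((outE (p i.castSucc)).filter (fun f => ¬ ∀ j ∈ J,
              f.1.2 ≠ p j.succ)).card ≤ k := by
            calc ((outE (p i.castSucc)).filter (fun f => ¬ ∀ j ∈ J, f.1.2 ≠ p j.succ)).card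
                ≤ (univ.image (fun j : Fin k => p j.succ)).card := by
                  apply card_le_card_of_injOn (fun f => f.1.2)
                  · intro f hf
                    rw [mem_coe, mem_filter] at hf
                    have h4 := hf.2
                    push Not at h4
                    obtain ⟨j, -, hj⟩ := h4
                    rw [mem_coe, mem_image]
                    exact ⟨j, mem_univ _, hj.symm⟩
                  · intro f hf g hg hfg
                    rw [mem_coe, mem_filter] at hf hg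
                    have h4 : f.1.1 = p i.castSucc := by simpa [outE] using hf.1
                    have h5 : g.1.1 = p i.castSucc := by simpa [outE] using hg.1
                    exact Subtype.ext (Prod.ext (h4.trans h5.symm) hfg)
              _ ≤ (univ : Finset (Fin k)).card := card_image_le
              _ = k := by simp
          rw [← card_filter_add_card_filter_not (s := outE (p i.castSucc)) (fun f => ∀ j ∈ J,
            f.1.2 ≠ p j.succ)]
          omega
        rw [card_outE] at h2
        have h3 := hph i.castSucc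
        have h4 : n - h - k ≤ ((outE (p i.castSucc)).filter (fun f => ∀ j ∈ J,
            f.1.2 ≠ p j.succ)).card := by omega
        have h5 : ((n - h - k : ℕ) : ℝ) = (n : ℝ) - h - k := by
          rw [Nat.cast_sub (by omega), Nat.cast_sub (by omega)]
        refine hk.trans ?_
        rw [← h5]
        exact_mod_cast h4
    have hpos : ∀ i : Fin k, (0 : ℝ) < (if i ∈ J then ((p i.succ).val : ℝ) else (n : ℝ) / 4) := by
      intro i
      split_ifs
      · have h2 := hlt i
        rw [Fin.lt_def] at h2
        exact_mod_cast (by omega : 0 < (p i.succ).val)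
      · have : (0 : ℝ) < n := by exact_mod_cast hn
        positivity
    have hprod : ∏ i : Fin k, (if i ∈ J then ((p i.succ).val : ℝ) else (n : ℝ) / 4) ≤
        ∏ i : Fin k, ((A J i).card : ℝ) := prod_le_prod (fun i _ => (hpos i).le) fun i _ => hcard i
    have hprodpos : 0 < ∏ i : Fin k, (if i ∈ J then ((p i.succ).val : ℝ) else (n : ℝ) / 4) :=
      prod_pos fun i _ => hpos i
    have hS : 0 ≤ ∑ σ : EdgeOrder n, (if ∀ i ∈ (univ : Finset (Fin k)),
        lastIn σ (A J i) (e i) then (1 : ℝ) else 0) :=
      sum_nonneg fun _ _ => by split_ifs <;> norm_num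
    have h2 : (∏ i : Fin k, (if i ∈ J then ((p i.succ).val : ℝ) else (n : ℝ) / 4)) *
        ∑ σ : EdgeOrder n, (if ∀ i ∈ (univ : Finset (Fin k)),
          lastIn σ (A J i) (e i) then (1 : ℝ) else 0) ≤ Fintype.card (EdgeOrder n) := by
      refine (mul_le_mul_of_nonneg_right hprod hS).trans (le_of_eq ?_)
      rw [← h1]
      congr!
    have h3 : ((∏ i ∈ J, 1 / ((p i.succ).val : ℝ)) * ∏ _i ∈ univ \ J, (4 / (n : ℝ))) =
        (∏ i : Fin k, (if i ∈ J then ((p i.succ).val : ℝ) else (n : ℝ) / 4))⁻¹ := by
      rw [← prod_inv_distrib, ← prod_sdiff (subset_univ J), mul_comm]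
      congr 1
      · refine prod_congr rfl fun i hi => ?_
        rw [Finset.mem_sdiff] at hi
        rw [if_neg hi.2, inv_div]
      · refine prod_congr rfl fun i hi => ?_
        rw [if_pos hi, one_div]
    rw [h3, ← div_eq_inv_mul, le_div_iff₀ hprodpos, mul_comm]
    exact h2
  have hcover : (((univ : Finset (EdgeOrder n)).filter (fun σ => IsPath (T σ) k p)).card : ℝ) ≤
      ∑ J ∈ (univ : Finset (Fin k)).powerset, ∑ σ : EdgeOrder n,
        (if ∀ i ∈ (univ : Finset (Fin k)), lastIn σ (A J i) (e i) then (1 : ℝ) else 0) := by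
    rw [sum_comm, card_filter]
    push_cast
    apply sum_le_sum
    intro σ _
    split_ifs with hσ
    · set J := (univ : Finset (Fin k)).filter (fun i => lastIn σ (inE (p i.succ)) (e i)) with hJ
      have hall : ∀ i ∈ (univ : Finset (Fin k)), lastIn σ (A J i) (e i) := by
        intro i _
        simp only [A]
        split_ifs with hi
        · rw [hJ, mem_filter] at hi
          exact hi.2
        · have h1 : e i ∈ T σ := by
            obtain ⟨h2, h3⟩ := hσ i
            exact h3
          simp only [T, mem_filter, mem_univ, true_and] at h1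
          have h2 : ¬ lastIn σ (inE (p i.succ)) (e i) := by
            intro h
            exact hi (by rw [hJ, mem_filter]; exact ⟨mem_univ _, h⟩)
          have h3 : lastIn σ (outE (p i.castSucc)) (e i) := h1.resolve_left h2
          refine ⟨?_, fun f hf => h3.2 f (mem_filter.1 hf).1⟩
          rw [mem_filter]
          refine ⟨h3.1, fun j hj heq => ?_⟩
          have := hp.injective (show p i.succ = p j.succ from heq)
          rw [Fin.succ_inj] at this
          exact hi (this ▸ hj)
      calc (1 : ℝ) = if ∀ i ∈ (univ : Finset (Fin k)), lastIn σ (A J i) (e i) then (1 : ℝ)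
            else 0 := by rw [if_pos hall]
        _ ≤ _ := single_le_sum (f := fun J => if ∀ i ∈ (univ : Finset (Fin k)),
            lastIn σ (A J i) (e i) then (1 : ℝ) else 0)
            (fun J _ => by split_ifs <;> norm_num) (mem_powerset.2 (subset_univ _))
    · exact sum_nonneg fun J _ => by split_ifs <;> norm_num
  refine hcover.trans ((sum_le_sum fun J _ => hA J).trans ?_)
  rw [← sum_mul, ← prod_add]

/-- The generating function bound for the sum over the paths. -/
lemma sum_paths_le (k h : ℕ) (w : Fin n → ℝ) (hw : ∀ v, 0 ≤ w v) (P : Finset (Fin (k + 1) → Fin n))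
    (hP : ∀ p ∈ P, StrictMono p ∧ ∀ i, (p i).val < h) :
    ∑ p ∈ P, ∏ i : Fin k, w (p i.succ) ≤
      n * ∏ v ∈ (univ : Finset (Fin n)).filter (fun v => 0 < v.val ∧ v.val < h), (1 + w v) := by
  classical
  set S := (univ : Finset (Fin n)).filter (fun v => 0 < v.val ∧ v.val < h) with hS
  let φ : (Fin (k + 1) → Fin n) → Fin n × Finset (Fin n) := fun p =>
    (p 0, univ.image (fun i : Fin k => p i.succ))
  have hφ : Set.InjOn φ P := by
    intro p hp q hq hpq
    simp only [φ, Prod.mk.injEq] at hpq
    obtain ⟨h0, him⟩ := hpq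
    rw [← StrictMono.range_inj (hP p hp).1 (hP q hq).1]
    have key : ∀ r : Fin (k + 1) → Fin n, Set.range r =
        insert (r 0) ((univ.image (fun i : Fin k => r i.succ) : Finset (Fin n)) :
          Set (Fin n)) := by
      intro r
      ext v
      simp only [Set.mem_range, coe_image, coe_univ, Set.image_univ, Set.mem_insert_iff]
      constructor
      · rintro ⟨i, rfl⟩
        refine Fin.cases ?_ (fun j => ?_) i
        · left; rfl
        · right; exact ⟨j, rfl⟩
      · rintro (h | ⟨j, rfl⟩)
        · exact ⟨0, h.symm⟩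
        · exact ⟨j.succ, rfl⟩
    rw [key p, key q, h0, him]
  have h1 : ∀ p ∈ P, ∏ i : Fin k, w (p i.succ) = ∏ v ∈ (φ p).2, w v := by
    intro p hp
    simp only [φ]
    rw [prod_image]
    intro i _ j _ hij
    have := (hP p hp).1.injective hij
    rwa [Fin.succ_inj] at this
  rw [sum_congr rfl h1, ← sum_image (f := fun x : Fin n × Finset (Fin n) => ∏ v ∈ x.2, w v) hφ]
  have h2 : P.image φ ⊆ (univ : Finset (Fin n)) ×ˢ S.powerset := by
    intro x hx
    obtain ⟨p, hp, rfl⟩ := mem_image.1 hx
    rw [mem_product]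
    refine ⟨mem_univ _, ?_⟩
    rw [mem_powerset]
    intro v hv
    simp only [φ, mem_image, mem_univ, true_and] at hv
    obtain ⟨i, rfl⟩ := hv
    rw [hS, mem_filter]
    refine ⟨mem_univ _, ?_, (hP p hp).2 _⟩
    have h3 := (hP p hp).1 (Fin.succ_pos i)
    rw [Fin.lt_def] at h3
    omega
  refine (sum_le_sum_of_subset_of_nonneg h2 fun x _ _ => prod_nonneg fun v _ => hw v).trans ?_
  rw [sum_product]
  simp only
  rw [sum_const, card_univ, Fintype.card_fin, nsmul_eq_mul, prod_one_add]

lemma prod_weights_le (h : ℕ) (hh : h ≤ n) (hn : 0 < n) :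
    ∏ v ∈ (univ : Finset (Fin n)).filter (fun v => 0 < v.val ∧ v.val < h),
      (1 + 2 * (1 / (v.val : ℝ) + 4 / n)) ≤ n ^ 2 * Real.exp 8 := by
  have hn' : (0 : ℝ) < n := by exact_mod_cast hn
  have h1 : ∀ m : ℕ, ∏ j ∈ range m, (1 + 2 / ((j : ℝ) + 1)) = ((m : ℝ) + 1) * (m + 2) / 2 := by
    intro m
    induction m with
    | zero => simp
    | succ m ih =>
      rw [prod_range_succ, ih]
      push_cast
      have : ((m : ℝ) + 1) ≠ 0 := by positivity
      field_simp
      ring
  have h2 : ∏ v ∈ (univ : Finset (Fin n)).filter (fun v => 0 < v.val ∧ v.val < h),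
      (1 + 2 * (1 / (v.val : ℝ) + 4 / n)) ≤
      ∏ j ∈ range (h - 1), ((1 + 2 / ((j : ℝ) + 1)) * (1 + 8 / n)) := by
    have h3 : ∏ v ∈ (univ : Finset (Fin n)).filter (fun v => 0 < v.val ∧ v.val < h),
        (1 + 2 * (1 / (v.val : ℝ) + 4 / n)) =
        ∏ j ∈ range (h - 1), (1 + 2 * (1 / ((j : ℝ) + 1) + 4 / n)) := by
      symm
      refine prod_bij' (fun j hj => (⟨j + 1, by
        rw [mem_range] at hj; omega⟩ : Fin n)) (fun v _ => v.val - 1) ?_ ?_ ?_ ?_ ?_
      · intro j hj
        rw [mem_range] at hj
        rw [mem_filter]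
        exact ⟨mem_univ _, by simp, by simp only; omega⟩
      · intro v hv
        rw [mem_filter] at hv
        rw [mem_range]
        omega
      · intro j hj
        simp
      · intro v hv
        rw [mem_filter] at hv
        apply Fin.ext
        simp only
        omega
      · intro j hj
        push_cast
        rfl
    rw [h3]
    apply Finset.prod_le_prod
    · intro j _
      positivity
    · intro j _
      have e1 : (1 + 2 * (1 / ((j : ℝ) + 1) + 4 / n)) = 1 + 2 / ((j : ℝ) + 1) + 8 / n := by ring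
      have e2 : (1 + 2 / ((j : ℝ) + 1)) * (1 + 8 / n) =
          1 + 2 / ((j : ℝ) + 1) + 8 / n + 2 / ((j : ℝ) + 1) * (8 / n) := by ring
      rw [e1, e2]
      have : (0 : ℝ) ≤ 2 / ((j : ℝ) + 1) * (8 / n) := by positivity
      linarith
  refine h2.trans ?_
  rw [prod_mul_distrib, h1, prod_const, card_range]
  have h4 : (1 + 8 / (n : ℝ)) ^ (h - 1) ≤ Real.exp 8 := by
    have h5 : (1 + 8 / (n : ℝ)) ≤ Real.exp (8 / n) := by
      rw [add_comm]; exact Real.add_one_le_exp _
    calc (1 + 8 / (n : ℝ)) ^ (h - 1) ≤ (Real.exp (8 / n)) ^ (h - 1) :=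
          pow_le_pow_left₀ (by positivity) h5 _
      _ = Real.exp (((h - 1 : ℕ) : ℝ) * (8 / n)) := by rw [← Real.exp_nat_mul]
      _ ≤ Real.exp 8 := by
          apply Real.exp_le_exp.2
          have h6 : ((h - 1 : ℕ) : ℝ) ≤ n := by exact_mod_cast (by omega : h - 1 ≤ n)
          calc ((h - 1 : ℕ) : ℝ) * (8 / n) ≤ n * (8 / n) :=
                mul_le_mul_of_nonneg_right h6 (by positivity)
            _ = 8 := by field_simp
  have h7 : (((h - 1 : ℕ) : ℝ) + 1) * (((h - 1 : ℕ) : ℝ) + 2) / 2 ≤ (n : ℝ) ^ 2 := by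
    by_cases hh0 : h = 0
    · subst hh0
      simp only [zero_tsub, Nat.cast_zero]
      have : (1 : ℝ) ≤ n := by exact_mod_cast hn
      nlinarith
    · have e3 : ((h - 1 : ℕ) : ℝ) = (h : ℝ) - 1 := by
        rw [Nat.cast_sub (by omega)]; simp
      have e4 : (h : ℝ) ≤ n := by exact_mod_cast hh
      have e5 : (1 : ℝ) ≤ n := by exact_mod_cast hn
      have e6 : (0 : ℝ) ≤ h := Nat.cast_nonneg _
      rw [e3]
      nlinarith
  exact mul_le_mul h7 h4 (by positivity) (by positivity)

lemma numLP_le (k h : ℕ) (hk : (n : ℝ) / 4 ≤ (n : ℝ) - h - k) (hkh : h + k ≤ n) (hn : 0 < n) :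
    (numLP n k h : ℝ) / Fintype.card (EdgeOrder n) ≤ n ^ 3 * Real.exp 8 / 2 ^ k := by
  classical
  rw [div_le_iff₀ card_order_pos]
  set P := (univ : Finset (Fin (k + 1) → Fin n)).filter
    (fun p => StrictMono p ∧ ∀ i, (p i).val < h) with hP
  have hn' : (0 : ℝ) < n := by exact_mod_cast hn
  have h1 : (numLP n k h : ℝ) ≤ ∑ p ∈ P,
      (((univ : Finset (EdgeOrder n)).filter (fun σ => IsPath (T σ) k p)).card : ℝ) := by
    have h2 : numLP n k h ≤ ∑ p ∈ P,
        ((univ : Finset (EdgeOrder n)).filter (fun σ => IsPath (T σ) k p)).card := by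
      refine le_trans (card_le_card ?_) card_biUnion_le
      intro σ hσ
      rw [mem_filter] at hσ
      obtain ⟨p, hp1, hp2⟩ := hσ.2
      rw [mem_biUnion]
      refine ⟨p, ?_, ?_⟩
      · rw [hP, mem_filter]
        exact ⟨mem_univ _, path_strictMono hp1, hp2⟩
      · rw [mem_filter]
        exact ⟨mem_univ _, hp1⟩
    exact_mod_cast h2
  have h3 : ∀ p ∈ P, (((univ : Finset (EdgeOrder n)).filter
      (fun σ => IsPath (T σ) k p)).card : ℝ) ≤
      (∏ i : Fin k, (2 * (1 / ((p i.succ).val : ℝ) + 4 / n))) / 2 ^ k *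
        Fintype.card (EdgeOrder n) := by
    intro p hp
    rw [hP, mem_filter] at hp
    refine (card_path_le hk hkh hn p hp.2.1 hp.2.2).trans (le_of_eq ?_)
    rw [prod_mul_distrib, prod_const, card_univ, Fintype.card_fin]
    field_simp
  refine h1.trans ((sum_le_sum h3).trans ?_)
  rw [← sum_mul, ← sum_div]
  apply mul_le_mul_of_nonneg_right _ (Nat.cast_nonneg _)
  apply div_le_div_of_nonneg_right _ (by positivity)
  have h4 := sum_paths_le k h (fun v : Fin n => 2 * (1 / (v.val : ℝ) + 4 / n))
    (fun v => by positivity) P (fun p hp => by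
      rw [hP, mem_filter] at hp
      exact hp.2)
  refine h4.trans ?_
  have h5 := prod_weights_le (n := n) h (by omega) hn
  calc (n : ℝ) * _ ≤ n * (n ^ 2 * Real.exp 8) := mul_le_mul_of_nonneg_left h5 hn'.le
    _ = n ^ 3 * Real.exp 8 := by ring

end upper

lemma eventually_lower : ∀ᶠ n : ℕ in atTop, 1 / 8 * Real.log n ≤ expL n := by
  have hlog : Tendsto (fun n : ℕ => Real.log (n : ℝ)) atTop atTop :=
    Real.tendsto_log_atTop.comp tendsto_natCast_atTop_atTop
  filter_upwards [eventually_ge_atTop 81, hlog.eventually_ge_atTop 8] with n hn hln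
  obtain ⟨m, hm⟩ : ∃ m, m = Nat.sqrt (Nat.sqrt n) := ⟨_, rfl⟩
  obtain ⟨s, hs⟩ : ∃ s, s = Nat.sqrt n := ⟨_, rfl⟩
  rw [← hs] at hm
  have h1 : m * m ≤ s := by rw [hm]; exact Nat.sqrt_le _
  have h2 : s < (m + 1) * (m + 1) := by rw [hm]; exact Nat.lt_succ_sqrt _
  have h3 : s * s ≤ n := by rw [hs]; exact Nat.sqrt_le _
  have h4 : n < (s + 1) * (s + 1) := by rw [hs]; exact Nat.lt_succ_sqrt _
  have hs9 : 9 ≤ s := by rw [hs, Nat.le_sqrt]; omega
  have hm3 : 3 ≤ m := by rw [hm, Nat.le_sqrt]; omega
  have h5 : n ≤ (m + 1) ^ 4 := by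
    calc n ≤ (s + 1) * (s + 1) := h4.le
      _ ≤ ((m + 1) * (m + 1)) * ((m + 1) * (m + 1)) := Nat.mul_le_mul h2 h2
      _ = (m + 1) ^ 4 := by ring
  have h6 : m ^ 4 ≤ n := by
    calc m ^ 4 = (m * m) * (m * m) := by ring
      _ ≤ s * s := Nat.mul_le_mul h1 h1
      _ ≤ n := h3
  have h7 : m * (m + 1) ^ 2 + 1 + m ≤ m ^ 4 := by
    have : 3 * m ^ 3 ≤ m ^ 4 := by
      calc 3 * m ^ 3 ≤ m * m ^ 3 := Nat.mul_le_mul_right _ hm3
        _ = m ^ 4 := by ring
    nlinarith [Nat.mul_le_mul hm3 hm3, Nat.mul_le_mul_right (m * m) hm3,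
      Nat.mul_le_mul_right m hm3]
  have hmn : m + 1 < n := by
    have : 1 ≤ m * (m + 1) ^ 2 := Nat.mul_pos (by omega) (by positivity)
    omega
  have h8 := expL_lower (n := n) m hmn
  have hpos : (0 : ℝ) < (n : ℝ) - 1 - m := by
    have : ((m + 1 : ℕ) : ℝ) < n := by exact_mod_cast hmn
    push_cast at this
    linarith
  have h9 : (m : ℝ) * (((m : ℝ) + 1) ^ 2 / ((n : ℝ) - 1 - m)) ≤ 1 := by
    rw [← mul_div_assoc, div_le_one hpos]
    have : ((m * (m + 1) ^ 2 + 1 + m : ℕ) : ℝ) ≤ n := by exact_mod_cast h7.trans h6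
    push_cast at this
    linarith
  have h10 : Real.log ((m + 1 : ℕ) : ℝ) ≤ harmonic m := log_add_one_le_harmonic m
  have h11 : Real.log n ≤ 4 * Real.log ((m + 1 : ℕ) : ℝ) := by
    have h12 : (n : ℝ) ≤ ((m + 1 : ℕ) : ℝ) ^ 4 := by exact_mod_cast h5
    have h13 := Real.log_le_log (by exact_mod_cast (by omega : 0 < n)) h12
    rw [Real.log_pow] at h13
    exact_mod_cast h13
  linarith

lemma eventually_upper : ∀ᶠ n : ℕ in atTop, expL n ≤ (25 + 2 * Real.exp 8) * Real.log n := by
  have hlog : Tendsto (fun n : ℕ => Real.log (n : ℝ)) atTop atTop :=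
    Real.tendsto_log_atTop.comp tendsto_natCast_atTop_atTop
  have hlog2 : ∀ᶠ n : ℕ in atTop, Real.log (n : ℝ) ≤ 1 / 100 * n := by
    have h := (Real.isLittleO_log_id_atTop.comp_tendsto tendsto_natCast_atTop_atTop).def
      (by norm_num : (0 : ℝ) < 1 / 100)
    filter_upwards [h, eventually_ge_atTop 1] with n hn hn1
    simp only [Function.comp_apply, id_eq, Real.norm_eq_abs, Nat.abs_cast] at hn
    exact (le_abs_self _).trans hn
  filter_upwards [eventually_ge_atTop 1000, hlog.eventually_ge_atTop 1, hlog2] with n hn hln hln2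
  have hn' : (0 : ℝ) < n := by exact_mod_cast (by omega : 0 < n)
  obtain ⟨l, hl⟩ : ∃ l, l = Nat.log 2 n := ⟨_, rfl⟩
  have h1 : n < 2 ^ (l + 1) := by rw [hl]; exact Nat.lt_pow_succ_log_self (by norm_num) n
  have h2 : 2 ^ l ≤ n := by rw [hl]; exact Nat.pow_log_le_self 2 (by omega)
  have h3 : (l : ℝ) ≤ 2 * Real.log n := by
    have h4 : ((2 : ℝ)) ^ l ≤ n := by exact_mod_cast h2
    have h5 := Real.log_le_log (by positivity) h4
    rw [Real.log_pow] at h5
    have h6 := Real.log_two_gt_d9
    nlinarith [Nat.cast_nonneg (α := ℝ) l]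
  set k := 4 * (l + 1) with hk
  have h7 : (n : ℝ) ^ 4 ≤ 2 ^ k := by
    have : n ^ 4 ≤ 2 ^ k := by
      calc n ^ 4 ≤ (2 ^ (l + 1)) ^ 4 := Nat.pow_le_pow_left h1.le 4
        _ = 2 ^ k := by rw [hk, ← pow_mul]; ring_nf
    exact_mod_cast this
  have hkr : (k : ℝ) = 4 * (l + 1) := by rw [hk]; push_cast; ring
  obtain ⟨h, hh⟩ : ∃ h, h = (n + 1) / 2 := ⟨_, rfl⟩
  have hh1 : 2 * h ≤ n + 1 := by omega
  have hh2 : n ≤ 2 * h := by omega
  have hhr : 2 * (h : ℝ) ≤ n + 1 := by exact_mod_cast hh1
  have hnr : (1000 : ℝ) ≤ n := by exact_mod_cast hn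
  have hcond : (n : ℝ) / 4 ≤ (n : ℝ) - h - k := by
    rw [hkr]
    linarith
  have hcond2 : h + k ≤ n := by
    have : ((h + k : ℕ) : ℝ) ≤ n := by
      push_cast
      linarith
    exact_mod_cast this
  have h8 := expL_upper (n := n) (by omega) k h hh2
  have h9 := numLP_le (n := n) k h hcond hcond2 (by omega)
  have h10 : 2 * (n : ℝ) * ((numLP n k h : ℝ) / Fintype.card (EdgeOrder n)) ≤ 2 * Real.exp 8 := by
    calc 2 * (n : ℝ) * ((numLP n k h : ℝ) / Fintype.card (EdgeOrder n))
        ≤ 2 * (n : ℝ) * (n ^ 3 * Real.exp 8 / 2 ^ k) :=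
          mul_le_mul_of_nonneg_left h9 (by positivity)
      _ = 2 * Real.exp 8 * (n ^ 4 / 2 ^ k) := by ring
      _ ≤ 2 * Real.exp 8 * 1 := by
          apply mul_le_mul_of_nonneg_left _ (by positivity)
          rw [div_le_one (by positivity)]
          exact h7
      _ = 2 * Real.exp 8 := mul_one _
  have h11 : 2 * Real.exp 8 * 1 ≤ 2 * Real.exp 8 * Real.log n :=
    mul_le_mul_of_nonneg_left hln (by positivity)
  rw [hkr] at h8
  nlinarith

/-- **Theorem.** `E[L_n]` is of order `log n`. -/
theorem result : ∃ c C : ℝ, 0 < c ∧ 0 < C ∧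
    ∀ᶠ n : ℕ in atTop, c * Real.log n ≤ expL n ∧ expL n ≤ C * Real.log n := by
  refine ⟨1 / 8, 25 + 2 * Real.exp 8, by norm_num, by positivity, ?_⟩
  filter_upwards [eventually_lower, eventually_upper] with n h1 h2
  exact ⟨h1, h2⟩

end Pool.Agent.Results.MP_25bd62_pr.LogLength
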